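import Pool.Agent.Helper20.KP.StH

/-!
# Project KP (MP_26be5b_ag): module HCV (countable cover by images of affine space)
-/

set_option autoImplicit false

namespace Pool.Agent.Helper99.KP

open Filter Pool.Agent.Helper52.KP Pool.Agent.Helper20.KP
open scoped Topology

/-- MODULE HCV of project KP. -/
theorem hHCV : StHCV := by
  intro D hD
  obtain ⟨b', hb'd, hb'c⟩ := hD.bdry
  choose! c hc using hD.charts
  have hnh : ∀ x ∈ D.O, Set.range (c x) ∈ 𝓝[D.O] x := by
    intro x hx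
    obtain ⟨δ, hδ, h⟩ := (hc x hx).cov 1 one_pos
    rw [mem_nhdsWithin]
    refine ⟨Metric.ball x δ, Metric.isOpen_ball, Metric.mem_ball_self hδ, ?_⟩
    rintro y ⟨hy, hyO⟩
    obtain ⟨s, -, hs⟩ := h y hyO (by rwa [Metric.mem_ball, dist_eq_norm] at hy)
    exact ⟨s, hs.symm⟩
  obtain ⟨t, htO, htc, htcov⟩ := TopologicalSpace.countable_cover_nhdsWithin hnh
  let pr : (Fin D.m → ℂ) → (Fin (D.m - 2) → ℂ) := fun z j =>
    z (Fin.castLE (Nat.sub_le D.m 2) j)
  have hpr : Differentiable ℂ pr := by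
    rw [differentiable_pi]
    intro j
    exact differentiable_apply _
  have hprs : Function.Surjective pr := by
    intro y
    refine ⟨fun j => if h : (j : ℕ) < D.m - 2 then y ⟨j, h⟩ else 0, ?_⟩
    funext j
    have hj : ((Fin.castLE (Nat.sub_le D.m 2) j : Fin D.m) : ℕ) < D.m - 2 := j.2
    simp only [pr]
    rw [dif_pos hj]
    rfl
  let S : Set ((Fin D.m → ℂ) → (Fin D.N → ℂ)) := c '' t ∪ Set.range fun i => b' i ∘ pr
  have hSc : S.Countable := (htc.image c).union (Set.countable_range _)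
  have hSn : S.Nonempty := ⟨b' 0 ∘ pr, Or.inr ⟨0, rfl⟩⟩
  obtain ⟨b, hb⟩ := hSc.exists_eq_range hSn
  refine ⟨b, ?_, ?_⟩
  · intro i
    have h : b i ∈ S := by
      rw [hb]
      exact ⟨i, rfl⟩
    rcases h with ⟨x, hx, h⟩ | ⟨j, h⟩
    · rw [← h]
      exact (hc x (htO hx)).dif
    · rw [← h]
      exact (hb'd j).comp hpr
  · intro x hx
    by_cases hxO : x ∈ D.O
    · have h1 := htcov hxO
      simp only [Set.mem_iUnion] at h1
      obtain ⟨y, hy, h2⟩ := h1
      have h3 : c y ∈ S := Or.inl ⟨y, hy, rfl⟩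
      rw [hb] at h3
      obtain ⟨i, hi⟩ := h3
      refine Set.mem_iUnion.mpr ⟨i, ?_⟩
      rw [hi]
      exact h2
    · have h1 := hb'c ⟨hx, hxO⟩
      simp only [Set.mem_iUnion] at h1
      obtain ⟨j, s, hs⟩ := h1
      have h3 : b' j ∘ pr ∈ S := Or.inr ⟨j, rfl⟩
      rw [hb] at h3
      obtain ⟨i, hi⟩ := h3
      obtain ⟨z, hz⟩ := hprs s
      refine Set.mem_iUnion.mpr ⟨i, z, ?_⟩
      rw [hi]
      show b' j (pr z) = x
      rw [hz, hs]

end Pool.Agent.Helper99.KP
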