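import Pool.Agent.Helper52.KP.StW

/-!
# Project KP (MP_26be5b_ag): module RMX

The regularized maximum of two smooth plurisubharmonic functions.
-/

set_option autoImplicit false

namespace Pool.Agent.Helper99.KP

open Pool.Agent.Helper52.KP Filter MeasureTheory
open scoped ContDiff ComplexOrder Topology

/-- the derivative of the smoothed absolute value (halved) -/
private noncomputable def sg (t : ℝ) : ℝ := Real.smoothTransition ((t + 1) / 2) - 1 / 2

private lemma sg_smooth : ContDiff ℝ ∞ sg := by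
  unfold sg
  exact (Real.smoothTransition.contDiff.comp ((contDiff_id.add contDiff_const).div_const 2)).sub
    contDiff_const

private lemma sg_mono : Monotone sg := by
  intro x y h
  unfold sg
  have := Real.smoothTransition.monotone (show (x + 1) / 2 ≤ (y + 1) / 2 by linarith)
  linarith

private lemma sg_le (t : ℝ) : sg t ≤ 1 / 2 := by
  unfold sg
  have := Real.smoothTransition.le_one ((t + 1) / 2)
  linarith

private lemma le_sg (t : ℝ) : -(1 / 2) ≤ sg t := by
  unfold sg
  have := Real.smoothTransition.nonneg ((t + 1) / 2)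
  linarith

private lemma sg_of_ge {t : ℝ} (h : 1 ≤ t) : sg t = 1 / 2 := by
  unfold sg
  rw [Real.smoothTransition.one_of_one_le (by linarith)]
  norm_num

private lemma sg_of_le {t : ℝ} (h : t ≤ -1) : sg t = -(1 / 2) := by
  unfold sg
  rw [Real.smoothTransition.zero_of_nonpos (by linarith)]
  norm_num

private lemma sg_neg (t : ℝ) : sg (-t) = -sg t := by
  unfold sg Real.smoothTransition
  have h1 : (-t + 1) / 2 = 1 - (t + 1) / 2 := by ring
  have h2 := Real.smoothTransition.pos_denom ((t + 1) / 2)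
  rw [h1, sub_sub_cancel]
  have h3 : expNegInvGlue (1 - (t + 1) / 2) + expNegInvGlue ((t + 1) / 2) ≠ 0 := by
    rw [add_comm]; exact h2.ne'
  have h4 := h2.ne'
  generalize expNegInvGlue ((t + 1) / 2) = p at *
  generalize expNegInvGlue (1 - (t + 1) / 2) = q at *
  field_simp
  ring

/-- the smoothed absolute value (halved) -/
private noncomputable def gg (t : ℝ) : ℝ := 1 / 2 + ∫ x in (1 : ℝ)..t, sg x

private lemma gg_deriv (t : ℝ) : HasDerivAt gg (sg t) t := by
  have h : HasDerivAt (fun t => ∫ x in (1 : ℝ)..t, sg x) (sg t) t :=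
    intervalIntegral.integral_hasDerivAt_right
      (sg_smooth.continuous.intervalIntegrable _ _)
      sg_smooth.continuous.aestronglyMeasurable.stronglyMeasurableAtFilter
      sg_smooth.continuous.continuousAt
  exact h.const_add _

private lemma gg_smooth : ContDiff ℝ ∞ gg := by
  rw [contDiff_infty_iff_deriv]
  refine ⟨fun t => (gg_deriv t).differentiableAt, ?_⟩
  have : deriv gg = sg := funext fun t => (gg_deriv t).deriv
  rw [this]
  exact sg_smooth

private lemma gg_of_ge {t : ℝ} (h : 1 ≤ t) : gg t = t / 2 := by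
  unfold gg
  have : ∫ x in (1 : ℝ)..t, sg x = ∫ x in (1 : ℝ)..t, (1 / 2 : ℝ) := by
    apply intervalIntegral.integral_congr
    intro x hx
    rw [Set.uIcc_of_le h] at hx
    exact sg_of_ge hx.1
  rw [this, intervalIntegral.integral_const, smul_eq_mul]
  ring

private lemma gg_of_le {t : ℝ} (h : t ≤ -1) : gg t = -t / 2 := by
  unfold gg
  have hi : ∀ a b : ℝ, IntervalIntegrable sg volume a b := fun a b =>
    sg_smooth.continuous.intervalIntegrable _ _
  have h0 : ∫ x in (1 : ℝ)..(-1), sg x = 0 := by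
    have h1 : ∫ x in (1 : ℝ)..(-1), sg (-x) = ∫ x in (1 : ℝ)..(-1), sg x := by
      rw [intervalIntegral.integral_comp_neg, neg_neg]
    have h2 : ∫ x in (1 : ℝ)..(-1), sg (-x) = -∫ x in (1 : ℝ)..(-1), sg x := by
      rw [← intervalIntegral.integral_neg]
      exact intervalIntegral.integral_congr fun x _ => sg_neg x
    linarith
  have h3 : ∫ x in (-1 : ℝ)..t, sg x = ∫ x in (-1 : ℝ)..t, (-(1 / 2) : ℝ) := by
    apply intervalIntegral.integral_congr
    intro x hx
    rw [Set.uIcc_of_ge h] at hx
    exact sg_of_le hx.2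
  rw [← intervalIntegral.integral_add_adjacent_intervals (hi 1 (-1)) (hi (-1) t), h0, h3,
    intervalIntegral.integral_const, smul_eq_mul]
  ring

variable {m : ℕ}

private lemma cf_fderiv {t : (Fin m → ℂ) → ℝ} {z : Fin m → ℂ} (ht : DifferentiableAt ℝ t z)
    {h : ℝ → ℝ} {c : ℝ} (hh : HasDerivAt h c (t z)) (v : Fin m → ℂ) :
    fderiv ℝ (cf (fun z => h (t z))) z v = (c : ℂ) * fderiv ℝ (cf t) z v := by
  have h1 : HasFDerivAt (cf t) (Complex.ofRealCLM.comp (fderiv ℝ t z)) z :=
    Complex.ofRealCLM.hasFDerivAt.comp z ht.hasFDerivAt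
  have h2 : HasFDerivAt (fun z => h (t z)) (c • fderiv ℝ t z) z :=
    hh.comp_hasFDerivAt z ht.hasFDerivAt
  have h3 : HasFDerivAt (cf (fun z => h (t z)))
      (Complex.ofRealCLM.comp (c • fderiv ℝ t z)) z :=
    Complex.ofRealCLM.hasFDerivAt.comp z h2
  rw [h1.fderiv, h3.fderiv]
  simp

private lemma dz_comp {t : (Fin m → ℂ) → ℝ} {z : Fin m → ℂ} (ht : DifferentiableAt ℝ t z)
    {h : ℝ → ℝ} {c : ℝ} (hh : HasDerivAt h c (t z)) (j : Fin m) :
    dz j (cf (fun z => h (t z))) z = (c : ℂ) * dz j (cf t) z := by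
  unfold dz
  rw [cf_fderiv ht hh, cf_fderiv ht hh]
  ring

private lemma db_comp {t : (Fin m → ℂ) → ℝ} {z : Fin m → ℂ} (ht : DifferentiableAt ℝ t z)
    {h : ℝ → ℝ} {c : ℝ} (hh : HasDerivAt h c (t z)) (j : Fin m) :
    db j (cf (fun z => h (t z))) z = (c : ℂ) * db j (cf t) z := by
  unfold db
  rw [cf_fderiv ht hh, cf_fderiv ht hh]
  ring

private lemma cf_diff {t : (Fin m → ℂ) → ℝ} {z : Fin m → ℂ} (ht : DifferentiableAt ℝ t z) :
    DifferentiableAt ℝ (cf t) z :=
  (Complex.ofRealCLM.hasFDerivAt.comp z ht.hasFDerivAt).differentiableAt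

private lemma dz_congr {f g : (Fin m → ℂ) → ℂ} {z : Fin m → ℂ} (h : f =ᶠ[𝓝 z] g) (j : Fin m) :
    dz j f z = dz j g z := by
  unfold dz
  rw [h.fderiv_eq]

/-- positive semidefinite matrices form a cone, and rank one matrices are in it -/
private lemma psd_add {A B : Matrix (Fin m) (Fin m) ℂ} (hA : Psd A) (hB : Psd B) :
    Psd (A + B) := by
  refine ⟨hA.1.add hB.1, fun ξ => ?_⟩
  have h : hf (A + B) ξ = hf A ξ + hf B ξ := by
    unfold hf
    rw [← Complex.add_re, ← Finset.sum_add_distrib]
    congr 1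
    refine Finset.sum_congr rfl fun j _ => ?_
    rw [← Finset.sum_add_distrib]
    refine Finset.sum_congr rfl fun k _ => ?_
    rw [Matrix.add_apply]
    ring
  rw [h]
  exact add_nonneg (hA.2 ξ) (hB.2 ξ)

private lemma psd_smul {A : Matrix (Fin m) (Fin m) ℂ} (hA : Psd A) {c : ℝ} (hc : 0 ≤ c) :
    Psd (Matrix.of fun j k => (c : ℂ) * A j k) := by
  refine ⟨?_, fun ξ => ?_⟩
  · ext j k
    have := congrFun (congrFun hA.1 j) k
    rw [Matrix.conjTranspose_apply] at this ⊢
    rw [Matrix.of_apply, Matrix.of_apply, star_mul', this]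
    simp
  · have h : hf (Matrix.of fun j k => (c : ℂ) * A j k) ξ = c * hf A ξ := by
      unfold hf
      rw [← Complex.re_ofReal_mul, Finset.mul_sum]
      congr 1
      refine Finset.sum_congr rfl fun j _ => ?_
      rw [Finset.mul_sum]
      refine Finset.sum_congr rfl fun k _ => ?_
      rw [Matrix.of_apply]
      ring
    rw [h]
    exact mul_nonneg hc (hA.2 ξ)

private lemma psd_rank (D : Fin m → ℂ) : Psd (Matrix.of fun j k => D j * star (D k)) := by
  refine ⟨?_, fun ξ => ?_⟩
  · ext j k
    rw [Matrix.conjTranspose_apply, Matrix.of_apply, Matrix.of_apply, star_mul', star_star,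
      mul_comm]
  · unfold hf
    have h : ∑ j, ∑ k, (Matrix.of fun j k => D j * star (D k)) j k * ξ j * star (ξ k) =
        (∑ j, D j * ξ j) * star (∑ j, D j * ξ j) := by
      rw [star_sum, Finset.sum_mul_sum]
      refine Finset.sum_congr rfl fun j _ => Finset.sum_congr rfl fun k _ => ?_
      rw [Matrix.of_apply, star_mul']
      ring
    rw [h, Complex.star_def, Complex.mul_conj, Complex.ofReal_re]
    exact Complex.normSq_nonneg _

/-- the regularized maximum -/
private noncomputable def mu (a b : ℝ) : ℝ := (a + b) / 2 + gg (a - b)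

private lemma db_mu {a b : (Fin m → ℂ) → ℝ} {z : Fin m → ℂ} (ha : DifferentiableAt ℝ a z)
    (hb : DifferentiableAt ℝ b z) (k : Fin m) :
    db k (cf (fun z => mu (a z) (b z))) z =
      cf (fun z => 1 / 2 + sg (a z - b z)) z * db k (cf a) z +
        cf (fun z => 1 / 2 - sg (a z - b z)) z * db k (cf b) z := by
  have h1 : HasFDerivAt (cf a) (Complex.ofRealCLM.comp (fderiv ℝ a z)) z :=
    Complex.ofRealCLM.hasFDerivAt.comp z ha.hasFDerivAt
  have h2 : HasFDerivAt (cf b) (Complex.ofRealCLM.comp (fderiv ℝ b z)) z :=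
    Complex.ofRealCLM.hasFDerivAt.comp z hb.hasFDerivAt
  have h3 : HasFDerivAt (fun z => gg (a z - b z))
      (sg (a z - b z) • (fderiv ℝ a z - fderiv ℝ b z)) z := by
    have h := HasDerivAt.comp_hasFDerivAt (h₂ := gg) (f := fun z => a z - b z) z
      (gg_deriv (a z - b z)) (ha.hasFDerivAt.sub hb.hasFDerivAt)
    exact h
  have h4 : HasFDerivAt (fun z => mu (a z) (b z))
      ((1 / 2 : ℝ) • (fderiv ℝ a z + fderiv ℝ b z) +
        sg (a z - b z) • (fderiv ℝ a z - fderiv ℝ b z)) z := by
    have h5 : (fun z => mu (a z) (b z)) =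
        fun z => (1 / 2 : ℝ) • (a z + b z) + gg (a z - b z) := by
      funext z
      unfold mu
      rw [smul_eq_mul]
      ring
    rw [h5]
    exact ((ha.hasFDerivAt.add hb.hasFDerivAt).const_smul (1 / 2 : ℝ)).add h3
  have h6 : HasFDerivAt (cf (fun z => mu (a z) (b z))) (Complex.ofRealCLM.comp
      ((1 / 2 : ℝ) • (fderiv ℝ a z + fderiv ℝ b z) +
        sg (a z - b z) • (fderiv ℝ a z - fderiv ℝ b z))) z :=
    Complex.ofRealCLM.hasFDerivAt.comp z h4
  unfold db
  rw [h1.fderiv, h2.fderiv, h6.fderiv]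
  simp only [cf, ContinuousLinearMap.comp_apply, _root_.add_apply,
    _root_.sub_apply, _root_.smul_apply, Complex.ofRealCLM_apply,
    smul_eq_mul]
  push_cast
  ring

private lemma db_sub {a b : (Fin m → ℂ) → ℝ} {z : Fin m → ℂ} (ha : DifferentiableAt ℝ a z)
    (hb : DifferentiableAt ℝ b z) (k : Fin m) :
    db k (cf (fun z => a z - b z)) z = db k (cf a) z - db k (cf b) z := by
  have h1 : HasFDerivAt (cf a) (Complex.ofRealCLM.comp (fderiv ℝ a z)) z :=
    Complex.ofRealCLM.hasFDerivAt.comp z ha.hasFDerivAt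
  have h2 : HasFDerivAt (cf b) (Complex.ofRealCLM.comp (fderiv ℝ b z)) z :=
    Complex.ofRealCLM.hasFDerivAt.comp z hb.hasFDerivAt
  have h6 : HasFDerivAt (cf (fun z => a z - b z)) (Complex.ofRealCLM.comp
      (fderiv ℝ a z - fderiv ℝ b z)) z :=
    Complex.ofRealCLM.hasFDerivAt.comp z (ha.hasFDerivAt.sub hb.hasFDerivAt)
  unfold db
  rw [h1.fderiv, h2.fderiv, h6.fderiv]
  simp only [ContinuousLinearMap.comp_apply, _root_.sub_apply,
    Complex.ofRealCLM_apply]
  push_cast
  ring

/-- MODULE RMX of project KP: the regularized maximum. -/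
theorem hRMX (hCAL : StCAL) : StRMX := by
  refine ⟨mu, ?_, ?_, ?_⟩
  · intro a b h
    unfold mu
    rw [gg_of_ge (by linarith)]
    ring
  · intro a b h
    unfold mu
    rw [gg_of_le (by linarith)]
    ring
  · intro m U hU a b ha hb pa pb
    have sm : ContDiffOn ℝ ∞ (fun z => mu (a z) (b z)) U := by
      unfold mu
      exact ((ha.add hb).div_const 2).add (gg_smooth.comp_contDiffOn (ha.sub hb))
    refine ⟨sm, fun z hz => ?_⟩
    have da : ∀ w ∈ U, DifferentiableAt ℝ a w := fun w hw =>
      (ha.contDiffAt (hU.mem_nhds hw)).differentiableAt (by simp)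
    have db' : ∀ w ∈ U, DifferentiableAt ℝ b w := fun w hw =>
      (hb.contDiffAt (hU.mem_nhds hw)).differentiableAt (by simp)
    have ca : ContDiffOn ℝ ∞ (cf a) U := Complex.ofRealCLM.contDiff.comp_contDiffOn ha
    have cb : ContDiffOn ℝ ∞ (cf b) U := Complex.ofRealCLM.contDiff.comp_contDiffOn hb
    have dA : ∀ k, DifferentiableAt ℝ (db k (cf a)) z := fun k =>
      (((hCAL m k k (cf a) (cf a) z).2.2.2.2 U hU ca).2.contDiffAt
        (hU.mem_nhds hz)).differentiableAt (by simp)
    have dB : ∀ k, DifferentiableAt ℝ (db k (cf b)) z := fun k =>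
      (((hCAL m k k (cf b) (cf b) z).2.2.2.2 U hU cb).2.contDiffAt
        (hU.mem_nhds hz)).differentiableAt (by simp)
    have dt : DifferentiableAt ℝ (fun w => a w - b w) z := (da z hz).sub (db' z hz)
    have hs : HasDerivAt sg (deriv sg (a z - b z)) (a z - b z) :=
      ((sg_smooth.contDiffAt (x := a z - b z)).differentiableAt (by simp)).hasDerivAt
    have hF := hs.const_add (1 / 2)
    have hG := hs.const_sub (1 / 2)
    have ds : DifferentiableAt ℝ (fun w => sg (a w - b w)) z :=
      (HasDerivAt.comp_hasFDerivAt (h₂ := sg) (f := fun z => a z - b z) z hs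
        dt.hasFDerivAt).differentiableAt
    have dF : DifferentiableAt ℝ (cf (fun w => 1 / 2 + sg (a w - b w))) z :=
      cf_diff (ds.const_add _)
    have dG : DifferentiableAt ℝ (cf (fun w => 1 / 2 - sg (a w - b w))) z :=
      cf_diff (ds.const_sub _)
    have hst : ∀ k, db k (cf (fun w => a w - b w)) z =
        star (dz k (cf (fun w => a w - b w)) z) := by
      intro k
      have h := ((hCAL m k k (cf (fun w => a w - b w)) (cf (fun w => a w - b w)) z).1
        (cf_diff dt) (cf_diff dt)).2.2.2.2.2.1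
      rw [← h]
      congr 1
      funext w
      simp [cf]
    have key : hes (fun z => mu (a z) (b z)) z =
        (Matrix.of fun j k => ((1 / 2 + sg (a z - b z) : ℝ) : ℂ) * hes a z j k) +
        (Matrix.of fun j k => ((1 / 2 - sg (a z - b z) : ℝ) : ℂ) * hes b z j k) +
        (Matrix.of fun j k => ((deriv sg (a z - b z) : ℝ) : ℂ) *
          (Matrix.of fun j k => dz j (cf (fun w => a w - b w)) z *
            star (dz k (cf (fun w => a w - b w)) z)) j k) := by
      ext j k
      have e1 : db k (cf (fun z => mu (a z) (b z))) =ᶠ[𝓝 z] fun w =>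
          (cf (fun z => 1 / 2 + sg (a z - b z)) w * db k (cf a) w) +
          (cf (fun z => 1 / 2 - sg (a z - b z)) w * db k (cf b) w) := by
        filter_upwards [hU.mem_nhds hz] with w hw
        exact db_mu (da w hw) (db' w hw) k
      have e2 := (hCAL m j j (fun w => cf (fun z => 1 / 2 + sg (a z - b z)) w * db k (cf a) w)
        (fun w => cf (fun z => 1 / 2 - sg (a z - b z)) w * db k (cf b) w) z).1
          (dF.mul (dA k)) (dG.mul (dB k))
      have e3 := (hCAL m j j (cf (fun z => 1 / 2 + sg (a z - b z))) (db k (cf a)) z).1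
          dF (dA k)
      have e4 := (hCAL m j j (cf (fun z => 1 / 2 - sg (a z - b z))) (db k (cf b)) z).1
          dG (dB k)
      have e5 := dz_comp dt (h := fun s => 1 / 2 + sg s) hF j
      have e6 := dz_comp dt (h := fun s => 1 / 2 - sg s) hG j
      have e7 : hes (fun z => mu (a z) (b z)) z j k =
          dz j (db k (cf (fun z => mu (a z) (b z)))) z := rfl
      rw [e7, dz_congr e1 j, e2.1, e3.2.2.1, e4.2.2.1, e5, e6]
      simp only [Matrix.add_apply, Matrix.of_apply]
      rw [← hst k, db_sub (da z hz) (db' z hz) k]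
      simp only [hes, Matrix.of_apply, cf]
      push_cast
      ring
    rw [key]
    refine psd_add (psd_add (psd_smul (pa z hz) ?_) (psd_smul (pb z hz) ?_))
      (psd_smul (psd_rank _) sg_mono.deriv_nonneg)
    · have := le_sg (a z - b z)
      linarith
    · have := sg_le (a z - b z)
      linarith

end Pool.Agent.Helper99.KP
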