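import Pool.Agent.Helper68.KP.StS

/-!
# Project KP (MP_26be5b_ag): module FLG

Every Hermitian matrix comes from a weighted flag.
-/

set_option autoImplicit false

namespace Pool.Agent.Helper99.KP

open Pool.Agent.Helper52.KP Pool.Agent.Helper68.KP Matrix

/-! ### sorted diagonalization -/

private lemma diag_sorted {n : ℕ} {D : Matrix (Fin (n + 1)) (Fin (n + 1)) ℂ}
    (hD : D.IsHermitian) :
    ∃ (Q : Matrix (Fin (n + 1)) (Fin (n + 1)) ℂ) (e : ℕ → ℝ), Qᴴ * Q = 1 ∧ Q * Qᴴ = 1 ∧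
      (∀ i j, i ≤ j → j ≤ n → e j ≤ e i) ∧
      D = Q * diagonal (fun j : Fin (n + 1) => ((e j : ℝ) : ℂ)) * Qᴴ := by
  set U : Matrix (Fin (n + 1)) (Fin (n + 1)) ℂ :=
    (hD.eigenvectorUnitary : Matrix (Fin (n + 1)) (Fin (n + 1)) ℂ) with hU
  set f := hD.eigenvalues with hf
  have hUU : Uᴴ * U = 1 := Unitary.coe_star_mul_self hD.eigenvectorUnitary
  have hsp : D = U * diagonal (fun j => ((f j : ℝ) : ℂ)) * Uᴴ := by
    have h := hD.spectral_theorem
    rw [Unitary.conjStarAlgAut_apply] at h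
    exact h
  let τ := Tuple.sort (fun i => - f i)
  have hτ : Monotone ((fun i => - f i) ∘ τ) := Tuple.monotone_sort _
  refine ⟨U.submatrix id τ, fun k => if h : k < n + 1 then f (τ ⟨k, h⟩) else 0, ?_, ?_, ?_, ?_⟩
  · rw [conjTranspose_submatrix]
    have h1 : Uᴴ.submatrix τ id * U.submatrix id τ = (Uᴴ * U).submatrix τ τ :=
      submatrix_mul_equiv Uᴴ U τ (Equiv.refl _) τ
    rw [h1, hUU]
    exact submatrix_one_equiv τ
  · rw [conjTranspose_submatrix, submatrix_mul_equiv, mul_eq_one_comm.mp hUU]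
    exact submatrix_one_equiv (Equiv.refl _)
  · intro i j hij hj
    have hi' : i < n + 1 := by omega
    have hj' : j < n + 1 := by omega
    simp only [hi', hj', dif_pos]
    have := hτ (show (⟨i, hi'⟩ : Fin (n + 1)) ≤ ⟨j, hj'⟩ from hij)
    simp only [Function.comp_apply, neg_le_neg_iff] at this
    exact this
  · have h2 : diagonal (fun j : Fin (n + 1) =>
        (((if h : (j : ℕ) < n + 1 then f (τ ⟨j, h⟩) else 0 : ℝ)) : ℂ)) =
        (diagonal (fun j => ((f j : ℝ) : ℂ))).submatrix τ τ := by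
      rw [submatrix_diagonal_equiv]
      congr 1
      funext j
      rw [dif_pos j.2]
      rfl
    rw [h2, conjTranspose_submatrix, submatrix_mul_equiv, submatrix_mul_equiv, ← hsp]
    rfl

/-! ### sums -/

private lemma sum_castLE {M : Type*} [AddCommMonoid M] {p N : ℕ} (h : p ≤ N) (g : Fin N → M) :
    ∑ j : Fin p, g (Fin.castLE h j) = ∑ j : Fin N, if (j : ℕ) < p then g j else 0 := by
  rw [← Finset.sum_filter]
  have e : Finset.univ.filter (fun j : Fin N => (j : ℕ) < p) =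
      Finset.univ.map (Fin.castLEEmb h) := by
    ext j
    simp only [Finset.mem_filter, Finset.mem_univ, true_and, Finset.mem_map, Fin.castLEEmb_apply]
    constructor
    · intro hj
      exact ⟨⟨j, hj⟩, rfl⟩
    · rintro ⟨a, rfl⟩
      exact a.2
  rw [e, Finset.sum_map]
  rfl

private lemma telescope (e : ℕ → ℝ) (n j : ℕ) (hj : j ≤ n) :
    ∑ i ∈ Finset.range n, (if j < i + 1 then e i - e (i + 1) else 0) = e j - e n := by
  induction n with
  | zero =>
    have : j = 0 := by omega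
    subst this
    simp
  | succ n ih =>
    rw [Finset.sum_range_succ]
    by_cases h : j ≤ n
    · rw [ih h, if_pos (by omega)]
      ring
    · have : j = n + 1 := by omega
      subst this
      rw [if_neg (by omega), add_zero, sub_self]
      refine Finset.sum_eq_zero fun i hi => ?_
      have := Finset.mem_range.mp hi
      rw [if_neg (by omega)]

/-- the Hilbert-Schmidt norm is a trace -/
private lemma hs_trace {N : ℕ} (M : Matrix (Fin N) (Fin N) ℂ) : hs M = ((Mᴴ * M).trace).re := by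
  unfold hs
  rw [Matrix.trace, Complex.re_sum, Finset.sum_comm]
  refine Finset.sum_congr rfl fun j _ => ?_
  rw [diag_apply, mul_apply, Complex.re_sum]
  refine Finset.sum_congr rfl fun i _ => ?_
  rw [conjTranspose_apply, Complex.star_def, ← Complex.normSq_eq_conj_mul_self, Complex.ofReal_re,
    Complex.normSq_eq_norm_sq]

private lemma hs_diag {N : ℕ} {Q : Matrix (Fin N) (Fin N) ℂ} (hQ : Qᴴ * Q = 1) (d : Fin N → ℝ) :
    hs (Q * diagonal (fun j => ((d j : ℝ) : ℂ)) * Qᴴ) = ∑ j, d j ^ 2 := by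
  have h1 : (Q * diagonal (fun j => ((d j : ℝ) : ℂ)) * Qᴴ)ᴴ =
      Q * diagonal (fun j => ((d j : ℝ) : ℂ)) * Qᴴ := by
    rw [conjTranspose_mul, conjTranspose_mul, conjTranspose_conjTranspose, diagonal_conjTranspose,
      Matrix.mul_assoc]
    congr 3
    funext j
    simp
  rw [hs_trace, h1]
  have h2 : Q * diagonal (fun j => ((d j : ℝ) : ℂ)) * Qᴴ *
      (Q * diagonal (fun j => ((d j : ℝ) : ℂ)) * Qᴴ) =
      Q * (diagonal (fun j => ((d j : ℝ) : ℂ)) * diagonal (fun j => ((d j : ℝ) : ℂ)) * Qᴴ) := by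
    calc _ = Q * diagonal (fun j => ((d j : ℝ) : ℂ)) * (Qᴴ * Q) *
          (diagonal (fun j => ((d j : ℝ) : ℂ)) * Qᴴ) := by
            simp only [Matrix.mul_assoc]
      _ = _ := by
        rw [hQ, Matrix.mul_one]
        simp only [Matrix.mul_assoc]
  rw [h2, Matrix.trace_mul_comm, Matrix.mul_assoc, hQ, Matrix.mul_one, diagonal_mul_diagonal,
    trace_diagonal, Complex.re_sum]
  refine Finset.sum_congr rfl fun j _ => ?_
  rw [← Complex.ofReal_mul, Complex.ofReal_re, pow_two]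

/-! ### the flag -/

/-- the first `p` columns -/
private def cols {N p : ℕ} (Q : Matrix (Fin N) (Fin N) ℂ) (h : p ≤ N) :
    Matrix (Fin N) (Fin p) ℂ := Q.submatrix id (Fin.castLE h)

private lemma cols_conj {N p : ℕ} {Q : Matrix (Fin N) (Fin N) ℂ} (hQ : Qᴴ * Q = 1)
    (h : p ≤ N) (v : Fin N → ℂ) :
    (cols Q h)ᴴ * (Q * diagonal v * Qᴴ) * cols Q h = diagonal (fun j => v (Fin.castLE h j)) := by
  have h1 : (cols Q h)ᴴ * (Q * diagonal v * Qᴴ) * cols Q h =
      (Qᴴ * (Q * diagonal v * Qᴴ) * Q).submatrix (Fin.castLE h) (Fin.castLE h) := by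
    ext a b
    simp only [cols, mul_apply, submatrix_apply, conjTranspose_apply, id_eq]
  rw [h1]
  have h2 : Qᴴ * (Q * diagonal v * Qᴴ) * Q = diagonal v := by
    calc _ = (Qᴴ * Q) * diagonal v * (Qᴴ * Q) := by simp only [Matrix.mul_assoc]
      _ = _ := by rw [hQ, Matrix.one_mul, Matrix.mul_one]
  rw [h2]
  ext a b
  by_cases hab : a = b
  · subst hab
    simp
  · have hab' : Fin.castLE h a ≠ Fin.castLE h b := fun h' =>
      hab (Fin.castLE_injective h h')
    rw [submatrix_apply, diagonal_apply_ne _ hab', diagonal_apply_ne _ hab]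

private lemma cols_orth {N p : ℕ} {Q : Matrix (Fin N) (Fin N) ℂ} (hQ : Qᴴ * Q = 1)
    (hQ' : Q * Qᴴ = 1) (h : p ≤ N) : (cols Q h)ᴴ * cols Q h = 1 := by
  have h1 := cols_conj hQ h (fun _ => 1)
  have h2 : Q * diagonal (fun _ => (1 : ℂ)) * Qᴴ = 1 := by
    rw [diagonal_one, Matrix.mul_one, hQ']
  rw [h2, Matrix.mul_one] at h1
  rw [h1, diagonal_one]

private lemma cols_nest {N p q : ℕ} (Q : Matrix (Fin N) (Fin N) ℂ) (h : p ≤ N) (h' : q ≤ N)
    (hpq : p ≤ q) : ∃ X : Matrix (Fin q) (Fin p) ℂ, cols Q h = cols Q h' * X := by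
  refine ⟨(1 : Matrix (Fin q) (Fin q) ℂ).submatrix id (Fin.castLE hpq), ?_⟩
  ext a b
  simp only [cols, mul_apply, submatrix_apply, id_eq, one_apply, mul_ite, mul_one, mul_zero]
  rw [Finset.sum_eq_single (Fin.castLE hpq b)]
  · rw [if_pos rfl]
    rfl
  · intro c _ hc
    rw [if_neg hc]
  · intro hc
    exact absurd (Finset.mem_univ _) hc

private lemma cols_proj {N p : ℕ} (Q : Matrix (Fin N) (Fin N) ℂ) (h : p ≤ N) :
    cols Q h * (cols Q h)ᴴ =
      Q * diagonal (fun j : Fin N => if (j : ℕ) < p then (1 : ℂ) else 0) * Qᴴ := by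
  ext a b
  rw [mul_apply, mul_apply]
  simp only [mul_diagonal, cols, submatrix_apply, id_eq, conjTranspose_apply]
  rw [sum_castLE h (fun j => Q a j * star (Q b j))]
  refine Finset.sum_congr rfl fun j _ => ?_
  split_ifs <;> simp

private lemma pj_cols {N p : ℕ} {Q : Matrix (Fin N) (Fin N) ℂ} (hQ : Qᴴ * Q = 1)
    (hQ' : Q * Qᴴ = 1) (h : p ≤ N) : pj ((1 : Matrix (Fin N) (Fin N) ℂ) * cols Q h) =
      Q * diagonal (fun j : Fin N => if (j : ℕ) < p then (1 : ℂ) else 0) * Qᴴ := by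
  unfold pj
  rw [Matrix.one_mul, cols_orth hQ hQ' h, inv_one, Matrix.mul_one, cols_proj]

/-- the weighted flag of a diagonalized matrix -/
private noncomputable def flg {n : ℕ} (Q : Matrix (Fin (n + 1)) (Fin (n + 1)) ℂ) (e : ℕ → ℝ) :
    WF (n + 1) where
  m := n
  p := fun i => (i : ℕ) + 1
  V := fun i => cols Q (by omega)
  c := fun i => e i - e (i + 1)
  c0 := e n

private lemma exp_real_fun {N : ℕ} (v : Fin N → ℝ) :
    NormedSpace.exp (fun j => ((v j : ℝ) : ℂ)) = fun j => ((Real.exp (v j) : ℝ) : ℂ) := by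
  funext j
  rw [Pi.coe_exp, ← Complex.exp_eq_exp_ℂ, Complex.ofReal_exp]

private lemma det_diag_real {N : ℕ} (v : Fin N → ℝ) :
    Real.log ((diagonal (fun j => ((Real.exp (v j) : ℝ) : ℂ))).det.re) = ∑ j, v j := by
  rw [det_diagonal, ← Complex.ofReal_prod, Complex.ofReal_re, ← Real.exp_sum, Real.log_exp]

private lemma tele_fin (e : ℕ → ℝ) (n : ℕ) (j : Fin (n + 1)) :
    ∑ i : Fin n, (if (j : ℕ) < (i : ℕ) + 1 then e i - e (i + 1) else 0) + e n = e j := by
  rw [Fin.sum_univ_eq_sum_range (fun i => if (j : ℕ) < i + 1 then e i - e (i + 1) else 0) n,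
    telescope e n j (by omega)]
  ring

private lemma flg_ok {n : ℕ} {Q : Matrix (Fin (n + 1)) (Fin (n + 1)) ℂ} (hQ : Qᴴ * Q = 1)
    (hQ' : Q * Qᴴ = 1) {e : ℕ → ℝ} (he : ∀ i j, i ≤ j → j ≤ n → e j ≤ e i) : (flg Q e).Ok where
  orth := fun i => cols_orth hQ hQ' _
  pos := fun i => by
    have := he i (i + 1) (by omega) (by have := i.2; exact this)
    exact sub_nonneg.mpr this
  nest := fun i j => by
    rcases le_total ((i : ℕ) + 1) ((j : ℕ) + 1) with h | h
    · left
      exact cols_nest Q _ _ h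
    · right
      exact cols_nest Q _ _ h

private lemma flg_L {n : ℕ} {Q : Matrix (Fin (n + 1)) (Fin (n + 1)) ℂ} (hQ : Qᴴ * Q = 1)
    (hQ' : Q * Qᴴ = 1) (e : ℕ → ℝ) : (flg Q e).L 1 =
      Q * diagonal (fun j : Fin (n + 1) => ((e j : ℝ) : ℂ)) * Qᴴ := by
  have h1 : (flg Q e).L 1 = ∑ i : Fin n, (((e i - e (i + 1) : ℝ)) : ℂ) •
      (Q * diagonal (fun j : Fin (n + 1) => if (j : ℕ) < (i : ℕ) + 1 then (1 : ℂ) else 0) * Qᴴ) +
      ((e n : ℝ) : ℂ) • (Q * 1 * Qᴴ) := by
    unfold WF.L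
    congr 1
    · refine Finset.sum_congr rfl fun i _ => ?_
      congr 1
      exact pj_cols hQ hQ' _
    · rw [Matrix.mul_one, hQ']
      rfl
  have h2 : ∑ i : Fin n, (((e i - e (i + 1) : ℝ)) : ℂ) •
      diagonal (fun j : Fin (n + 1) => if (j : ℕ) < (i : ℕ) + 1 then (1 : ℂ) else 0) +
      ((e n : ℝ) : ℂ) • (1 : Matrix (Fin (n + 1)) (Fin (n + 1)) ℂ) =
      diagonal (fun j : Fin (n + 1) => ((e j : ℝ) : ℂ)) := by
    ext a b
    rw [Matrix.add_apply, Matrix.sum_apply, Matrix.smul_apply]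
    by_cases hab : a = b
    · subst hab
      rw [diagonal_apply_eq, one_apply_eq, ← tele_fin e n a]
      push_cast
      congr 1
      · refine Finset.sum_congr rfl fun i _ => ?_
        rw [Matrix.smul_apply, diagonal_apply_eq]
        split_ifs <;> simp
      · simp
    · rw [diagonal_apply_ne _ hab, one_apply_ne hab, smul_zero, add_zero]
      refine Finset.sum_eq_zero fun i _ => ?_
      rw [Matrix.smul_apply, diagonal_apply_ne _ hab, smul_zero]
  rw [h1, ← h2, Matrix.mul_add, Matrix.add_mul, Matrix.mul_sum, Matrix.sum_mul]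
  simp only [Matrix.mul_smul, Matrix.smul_mul]

private lemma exp_conj' {N : ℕ} {Q : Matrix (Fin N) (Fin N) ℂ} (hQ : Qᴴ * Q = 1)
    (t : ℝ) (d : Fin N → ℝ) :
    NormedSpace.exp ((t : ℂ) • (Q * diagonal (fun j => ((d j : ℝ) : ℂ)) * Qᴴ)) =
      Q * diagonal (fun j => ((Real.exp (t * d j) : ℝ) : ℂ)) * Qᴴ := by
  have hinv : Q⁻¹ = Qᴴ := inv_eq_left_inv hQ
  have hu : IsUnit Q := ⟨⟨Q, Qᴴ, mul_eq_one_comm.mp hQ, hQ⟩, rfl⟩
  have h1 : (t : ℂ) • (Q * diagonal (fun j => ((d j : ℝ) : ℂ)) * Qᴴ) =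
      Q * diagonal (fun j => ((t * d j : ℝ) : ℂ)) * Q⁻¹ := by
    rw [hinv, ← Matrix.smul_mul, ← Matrix.mul_smul]
    congr 2
    ext a b
    by_cases hab : a = b
    · subst hab
      rw [Matrix.smul_apply, diagonal_apply_eq, diagonal_apply_eq, smul_eq_mul]
      push_cast
      rfl
    · rw [Matrix.smul_apply, diagonal_apply_ne _ hab, diagonal_apply_ne _ hab, smul_zero]
  rw [h1, Matrix.exp_conj _ _ hu, Matrix.exp_diagonal, exp_real_fun, hinv]

/-- MODULE FLG of project KP: every Hermitian matrix comes from a weighted flag. -/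
theorem hFLG : StFLG := by
  intro N D hD
  rcases N with _ | n
  · refine ⟨⟨0, fun i => i.elim0, fun i => i.elim0, fun i => i.elim0, 0⟩,
      ⟨fun i => i.elim0, fun i => i.elim0, fun i => i.elim0⟩, Subsingleton.elim _ _, ?_, ?_⟩
    · rw [Fintype.sum_empty]
      positivity
    · intro t
      simp [WF.f, hs]
  · obtain ⟨Q, e, hQ, hQ', he, hDe⟩ := diag_sorted hD
    have hhs : hs D = ∑ j : Fin (n + 1), e j ^ 2 := by
      rw [hDe]
      exact hs_diag hQ (fun j => e j)
    have hle : ∀ k : ℕ, k ≤ n → |e k| ≤ Real.sqrt (hs D) := by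
      intro k hk
      rw [hhs]
      apply Real.abs_le_sqrt
      exact Finset.single_le_sum (f := fun j : Fin (n + 1) => e j ^ 2) (fun j _ => pow_two_nonneg _)
        (Finset.mem_univ (⟨k, by omega⟩ : Fin (n + 1)))
    refine ⟨flg Q e, flg_ok hQ hQ' he, ?_, ?_, ?_⟩
    · rw [flg_L hQ hQ', hDe]
    · have h1 : ∑ i, (flg Q e).c i = e 0 - e n := by
        have h2 := tele_fin e n 0
        have h3 : ∑ i, (flg Q e).c i =
            ∑ i : Fin n, (if ((0 : Fin (n + 1)) : ℕ) < (i : ℕ) + 1 then e i - e (i + 1) else 0) := by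
          refine Finset.sum_congr rfl fun i _ => ?_
          rw [if_pos (by simp)]
          rfl
        rw [h3]
        have h4 : ((0 : Fin (n + 1)) : ℕ) = 0 := rfl
        rw [h4] at h2 ⊢
        linarith
      rw [h1]
      have h5 := abs_le.mp (hle 0 (by omega))
      have h6 := abs_le.mp (hle n le_rfl)
      linarith [h5.2, h6.1]
    · intro t
      have hE : NormedSpace.exp ((t : ℂ) • D) =
          Q * diagonal (fun j : Fin (n + 1) => ((Real.exp (t * e j) : ℝ) : ℂ)) * Qᴴ := by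
        rw [hDe]
        exact exp_conj' hQ t (fun j => e j)
      rw [hE]
      have hc0 : Real.log ((Q * diagonal (fun j : Fin (n + 1) =>
          ((Real.exp (t * e j) : ℝ) : ℂ)) * Qᴴ).det.re) = ∑ j : Fin (n + 1), t * e j := by
        rw [← det_diag_real (fun j : Fin (n + 1) => t * e j), det_mul_right_comm,
          mul_eq_one_comm.mp hQ, Matrix.one_mul]
      have hci : ∀ i : Fin n, Real.log ((((flg Q e).V i)ᴴ * (Q * diagonal
          (fun j : Fin (n + 1) => ((Real.exp (t * e j) : ℝ) : ℂ)) * Qᴴ) * (flg Q e).V i).det.re) =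
          ∑ j : Fin (n + 1), if (j : ℕ) < (i : ℕ) + 1 then t * e j else 0 := by
        intro i
        have h7 : (i : ℕ) + 1 ≤ n + 1 := by omega
        have h8 := cols_conj hQ h7 (fun j : Fin (n + 1) => ((Real.exp (t * e j) : ℝ) : ℂ))
        have h9 : ((flg Q e).V i)ᴴ * (Q * diagonal
          (fun j : Fin (n + 1) => ((Real.exp (t * e j) : ℝ) : ℂ)) * Qᴴ) * (flg Q e).V i =
            diagonal (fun j : Fin ((i : ℕ) + 1) =>
              ((Real.exp (t * e (Fin.castLE h7 j)) : ℝ) : ℂ)) := h8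
        rw [h9]
        exact (det_diag_real (fun j : Fin ((i : ℕ) + 1) => t * e (Fin.castLE h7 j))).trans
          (sum_castLE h7 (fun j => t * e j))
      unfold WF.f
      rw [hc0, hhs]
      have h10 : ∑ i, (flg Q e).c i * Real.log ((((flg Q e).V i)ᴴ * (Q * diagonal
          (fun j : Fin (n + 1) => ((Real.exp (t * e j) : ℝ) : ℂ)) * Qᴴ) * (flg Q e).V i).det.re) =
          ∑ j : Fin (n + 1), (∑ i : Fin n,
            (if (j : ℕ) < (i : ℕ) + 1 then e i - e (i + 1) else 0)) * (t * e j) := by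
        calc _ = ∑ i : Fin n, (e i - e (i + 1)) *
              ∑ j : Fin (n + 1), (if (j : ℕ) < (i : ℕ) + 1 then t * e j else 0) :=
              Finset.sum_congr rfl fun i _ => by rw [hci i]; rfl
          _ = _ := by
            simp only [Finset.mul_sum, Finset.sum_mul]
            rw [Finset.sum_comm]
            refine Finset.sum_congr rfl fun j _ => Finset.sum_congr rfl fun i _ => ?_
            split_ifs <;> ring
      rw [h10]
      have h11 : (flg Q e).c0 = e n := rfl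
      rw [h11, Finset.mul_sum, ← Finset.sum_add_distrib, Finset.mul_sum]
      refine Finset.sum_congr rfl fun j _ => ?_
      rw [← add_mul, tele_fin e n j]
      ring

end Pool.Agent.Helper99.KP
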