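import Pool.Agent.Helper85.KP.StE

/-!
# Project KP (MP_26be5b_ag): module EVA (averages)
-/

set_option autoImplicit false

namespace Pool.Agent.Helper99.KP

open MeasureTheory Filter Pool.Agent.Helper52.KP Pool.Agent.Helper85.KP
open scoped ContDiff ComplexOrder Topology

private lemma isOpen_U (C : Cone) : IsOpen C.U := by
  have hc : Continuous fun z : Fin C.m → ℂ => ev C.Δ z := MvPolynomial.continuous_eval C.Δ
  exact isOpen_ne_fun hc continuous_const

private lemma isOpen_S1 (C : Cone) (hC : Good C) : IsOpen (S1 C) := by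
  have h := hC.usm.continuousOn.isOpen_inter_preimage (isOpen_U C) (isOpen_Iio (a := (1 : ℝ)))
  have e : S1 C = C.U ∩ C.u ⁻¹' Set.Iio 1 := by
    ext z
    rfl
  rw [e]
  exact h

/-- ratios of sequences -/
private lemma ratio {a b c : ℕ → ℝ} {e M : ℝ} (he : 0 < e) (h1 : Tendsto (fun i => a i - c i) atTop (𝓝 0))
    (h2 : Tendsto b atTop (𝓝 e)) (h3 : ∀ i, |c i| ≤ M) :
    Tendsto (fun i => a i / b i - c i / e) atTop (𝓝 0) := by
  have h4 : Tendsto (fun i => (a i - c i) / b i) atTop (𝓝 (0 / e)) := h1.div h2 he.ne'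
  have h5 : Tendsto (fun i => (b i)⁻¹ - e⁻¹) atTop (𝓝 (e⁻¹ - e⁻¹)) :=
    (h2.inv₀ he.ne').sub tendsto_const_nhds
  rw [sub_self] at h5
  have h6 : Tendsto (fun i => c i * ((b i)⁻¹ - e⁻¹)) atTop (𝓝 0) := by
    refine squeeze_zero_norm (a := fun i => M * |(b i)⁻¹ - e⁻¹|) (fun i => ?_) ?_
    · rw [Real.norm_eq_abs, abs_mul]
      exact mul_le_mul_of_nonneg_right (h3 i) (abs_nonneg _)
    · have := (h5.abs).const_mul M
      rwa [abs_zero, mul_zero] at this
  have h7 := h4.add h6
  rw [zero_div, add_zero] at h7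
  refine h7.congr fun i => ?_
  rw [div_eq_mul_inv, div_eq_mul_inv, div_eq_mul_inv]
  ring

/-- MODULE EVA of project KP (averages). -/
theorem hEVA : StEWT → StEIN → StVOL → StEVA := by
  intro hEWT hEIN hVOL C r Λ k N s lam hC hS t ht0 ht
  obtain ⟨-, -, hw, -⟩ := hEWT C r Λ k N s lam hC hS t ht0 ht
  have hvol : C.nu (S1 C) = ENNReal.ofReal (C.rd * (Real.pi / 2) ^ C.m / C.m.factorial) :=
    hVOL C hC
  have hpos : (0 : ℝ) < C.rd * (Real.pi / 2) ^ C.m / C.m.factorial := by
    have h1 : (0 : ℝ) < (C.rd : ℝ) := by exact_mod_cast hC.rd0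
    have h2 := Real.pi_pos
    positivity
  have hmeas : MeasurableSet (S1 C) := (isOpen_S1 C hC).measurableSet
  have hfin : IsFiniteMeasure (C.nu.restrict (S1 C)) := by
    refine ⟨?_⟩
    rw [Measure.restrict_apply_univ, hvol]
    exact ENNReal.ofReal_lt_top
  have hmem : ∀ᵐ z ∂(C.nu.restrict (S1 C)), z ∈ S1 C := ae_restrict_mem hmeas
  have hI1 : I1 C (fun _ => 1) = C.rd * (Real.pi / 2) ^ C.m / C.m.factorial := by
    unfold I1
    rw [integral_const, smul_eq_mul, mul_one, Measure.real, Measure.restrict_apply_univ, hvol,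
      ENNReal.toReal_ofReal hpos.le]
  have hI1pos : 0 < I1 C (fun _ => 1) := by
    rw [hI1]
    exact hpos
  have hD : ∀ i, 0 < C.n * r * k i := fun i =>
    Nat.mul_pos (Nat.mul_pos hC.hn hS.hr) (hS.kpos i)
  have hint : ∀ i, Integrable (wt C (C.n * r * k i) (s i) (lam i) (t i)) (C.nu.restrict (S1 C)) :=
    fun i => (hEIN C hC (C.n * r * k i) (N i) (hD i) (s i) (lam i) (hS.onb i).span (t i)
      (ht0 i)).1
  have hint1 : ∀ i, Integrable (fun z => wt C (C.n * r * k i) (s i) (lam i) (t i) z - 1)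
      (C.nu.restrict (S1 C)) := fun i => (hint i).sub (integrable_const 1)
  have hU : ∀ z ∈ S1 C, z ∈ C.U := fun z hz => hz.1
  have key : ∀ (x : ℕ → (Fin C.m → ℂ) → ℝ) (B : ℝ),
      (∀ i, AEStronglyMeasurable (x i) (C.nu.restrict (S1 C))) →
      (∀ i, ∀ z ∈ C.U, |x i z| ≤ B) →
      Tendsto (fun i => Iw C (C.n * r * k i) (s i) (lam i) (t i) (x i) - I1 C (x i)) atTop
        (𝓝 0) := by
    intro x B hx hB
    refine squeeze_zero_norm (a := fun i => B *
      I1 C (fun z => |wt C (C.n * r * k i) (s i) (lam i) (t i) z - 1|)) (fun i => ?_) ?_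
    · have hb : ∀ᵐ z ∂(C.nu.restrict (S1 C)), ‖x i z‖ ≤ B := by
        filter_upwards [hmem] with z hz
        rw [Real.norm_eq_abs]
        exact hB i z (hU z hz)
      have i1 : Integrable (fun z => x i z * wt C (C.n * r * k i) (s i) (lam i) (t i) z)
          (C.nu.restrict (S1 C)) := (hint i).bdd_mul (hx i) hb
      have i2 : Integrable (x i) (C.nu.restrict (S1 C)) := by
        have := (integrable_const (1 : ℝ) (μ := C.nu.restrict (S1 C))).bdd_mul (hx i) hb
        simpa using this
      have e1 : Iw C (C.n * r * k i) (s i) (lam i) (t i) (x i) - I1 C (x i) =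
          ∫ z in S1 C, x i z * (wt C (C.n * r * k i) (s i) (lam i) (t i) z - 1) ∂C.nu := by
        unfold Iw I1
        rw [← integral_sub i1 i2]
        refine integral_congr_ae (Eventually.of_forall fun z => ?_)
        simp only
        ring
      rw [e1]
      unfold I1
      rw [← integral_const_mul]
      refine norm_integral_le_of_norm_le ((hint1 i).abs.const_mul B) ?_
      filter_upwards [hb] with z hz
      rw [norm_mul, Real.norm_eq_abs (wt C (C.n * r * k i) (s i) (lam i) (t i) z - 1)]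
      exact mul_le_mul_of_nonneg_right hz (abs_nonneg _)
    · have := hw.const_mul B
      rwa [mul_zero] at this
  have hone : Tendsto (fun i => Iw C (C.n * r * k i) (s i) (lam i) (t i) (fun _ => 1)) atTop
      (𝓝 (I1 C (fun _ => 1))) := by
    have h := key (fun _ _ => 1) 1 (fun _ => aestronglyMeasurable_const) (fun _ _ _ => by simp)
    have h' := h.add_const (I1 C (fun _ => 1))
    rw [zero_add] at h'
    refine h'.congr fun i => ?_
    ring
  refine ⟨hI1pos, hone, ?_⟩
  intro x B hx hB
  refine ratio (M := |B| * I1 C (fun _ => 1)) hI1pos (key x B hx hB) hone (fun i => ?_)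
  have e1 : |I1 C (x i)| ≤ I1 C (fun _ => |B|) := by
    unfold I1
    rw [← Real.norm_eq_abs]
    refine norm_integral_le_of_norm_le (integrable_const _) ?_
    filter_upwards [hmem] with z hz
    rw [Real.norm_eq_abs]
    exact (hB i z (hU z hz)).trans (le_abs_self B)
  refine e1.trans (le_of_eq ?_)
  unfold I1
  rw [← integral_const_mul]
  refine integral_congr_ae (Eventually.of_forall fun z => ?_)
  simp only
  ring

end Pool.Agent.Helper99.KP
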